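import Pool.Agent.Lib.MP_acafa7_al.F.IfaceG

/-! Row MINQ: the quadratic isoperimetric inequality for minimal maps. -/

namespace MSG

open Classical

namespace F67

theorem isMD {V D : Type} [Fintype D] (X : Cx V) (hX : X.IsMetric) (hL : X.Large)
    (hR : PRedStatement) (M : PMap V D) (R : List D) (w : List V) (h : IsMin X.G M R w) :
    IsMD M.toDMap R (M.ln X) := by
  obtain ⟨h, hmin⟩ := h
  refine ⟨h.planar, h.face, h.off, ⟨?_, ?_, ?_⟩, ?_⟩
  · intro d
    exact hX.pos _ _ (h.adj d)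
  · intro d
    unfold PMap.ln
    rw [M.ιι, hX.symm]
  · intro d hd
    have h3 := (h.off.2 d hd).1
    have a1 := h.adj d
    have a2 := h.adj (M.φ d)
    have a3 := h.adj (M.φ (M.φ d))
    rw [M.tgt] at a1 a2 a3
    rw [h3] at a3
    unfold PMap.ln
    rw [M.tgt, M.tgt, M.tgt, h3]
    have h4 := hX.tri (M.f (M.φ d)) (M.f d) (M.f (M.φ (M.φ d))) a1.symm a3.symm a2
    rw [hX.symm (M.f d) (M.f (M.φ d)), hX.symm (M.f (M.φ (M.φ d))) (M.f d)]
    exact h4
  · intro d hd
    by_contra hc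
    push Not at hc
    obtain ⟨D', i', M', R', h', hlt⟩ := hR V D X hX hL M R w d h hd hc
    have h5 := @hmin D' i' M' R' h'
    omega

/-- MINQ -/
theorem minq_st (hQ : ThmQStatement) (hR : PRedStatement) (_hA : QAreaStatement) :
    MinQStatement := by
  intro a₀ Λ ha
  refine ⟨⌈Λ ^ 2 / (Real.pi * a₀)⌉₊, ?_⟩
  intro V X hX hL hlen harea D _ M R w h
  have hMD := isMD X hX hL hR M R w h
  have hq := hQ D M.toDMap R (M.ln X) hMD
  obtain ⟨⟨hpl, hadj, hface, hoff, -⟩, -⟩ := h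
  obtain ⟨hne, hnd, -⟩ := hface
  -- the lengths
  have hl0 : 0 ≤ (R.map (M.ln X)).sum := by
    apply List.sum_nonneg
    intro x hx
    obtain ⟨d, -, rfl⟩ := List.mem_map.mp hx
    exact (hMD.lenok.1 d).le
  have hl1 : (R.map (M.ln X)).sum ≤ R.length * Λ := by
    have h1 := List.sum_le_card_nsmul (R.map (M.ln X)) Λ (by
      intro x hx
      obtain ⟨d, -, rfl⟩ := List.mem_map.mp hx
      exact hlen _ _ (hadj d))
    rw [List.length_map, nsmul_eq_mul] at h1
    exact h1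
  have hl2 : ((R.map (M.ln X)).sum) ^ 2 ≤ (R.length * Λ) ^ 2 := pow_le_pow_left₀ hl0 hl1 2
  -- the area
  have har : a₀ * ((Fintype.card D : ℝ) - R.length) ≤ M.toDMap.area3 (M.ln X) R := by
    have h1 : a₀ * ((Fintype.card D : ℝ) - R.length) = ∑ d : D, if d ∈ R then 0 else a₀ := by
      have h2 : ∀ d : D, (if d ∈ R then 0 else a₀) = a₀ - if d ∈ R then a₀ else 0 := by
        intro d
        split_ifs <;> ring
      simp_rw [h2]
      rw [Finset.sum_sub_distrib, Finset.sum_const, Finset.card_univ, nsmul_eq_mul,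
        ← Finset.sum_filter, Finset.sum_const, nsmul_eq_mul]
      have h3 : (Finset.univ.filter (fun d : D => d ∈ R)).card = R.length := by
        rw [← List.toFinset_card_of_nodup hnd]
        congr 1
        ext d
        simp
      rw [h3]
      ring
    rw [h1]
    unfold DMap.area3
    apply Finset.sum_le_sum
    intro d _
    by_cases hd : d ∈ R
    · rw [if_pos hd, if_pos hd]
    · rw [if_neg hd, if_neg hd]
      have h3 := (hoff.2 d hd).1
      have a1 := hadj d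
      have a2 := hadj (M.φ d)
      have a3 := hadj (M.φ (M.φ d))
      rw [M.tgt] at a1 a2 a3
      rw [h3] at a3
      unfold PMap.ln
      rw [M.tgt, M.tgt, M.tgt, h3]
      have h4 := harea (M.f (M.φ d)) (M.f d) (M.f (M.φ (M.φ d))) a1.symm a3.symm a2
      rw [hX.symm (M.f (M.φ d)) (M.f d), hX.symm (M.f d) (M.f (M.φ (M.φ d))),
        hX.symm (M.f (M.φ (M.φ d))) (M.f (M.φ d))] at h4
      exact h4
  have hpi := Real.pi_pos
  have hpa : 0 < Real.pi * a₀ := mul_pos hpi ha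
  have h5 : Real.pi * a₀ * ((Fintype.card D : ℝ) - R.length) ≤ 3 * (R.length * Λ) ^ 2 := by
    calc Real.pi * a₀ * ((Fintype.card D : ℝ) - R.length)
        = Real.pi * (a₀ * ((Fintype.card D : ℝ) - R.length)) := by ring
      _ ≤ Real.pi * M.toDMap.area3 (M.ln X) R := mul_le_mul_of_nonneg_left har hpi.le
      _ ≤ 3 * ((R.map (M.ln X)).sum) ^ 2 := hq
      _ ≤ 3 * (R.length * Λ) ^ 2 := by linarith
  have h6 : (Fintype.card D : ℝ) - R.length ≤ 3 * (Λ ^ 2 / (Real.pi * a₀) * R.length ^ 2) := by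
    have h7 : 3 * (Λ ^ 2 / (Real.pi * a₀) * (R.length : ℝ) ^ 2) =
        (3 * (R.length * Λ) ^ 2) / (Real.pi * a₀) := by
      field_simp
    rw [h7, le_div_iff₀ hpa]
    linarith
  have h8 : Λ ^ 2 / (Real.pi * a₀) ≤ (⌈Λ ^ 2 / (Real.pi * a₀)⌉₊ : ℝ) := Nat.le_ceil _
  have h9 : (Fintype.card D : ℝ) ≤
      R.length + 3 * ((⌈Λ ^ 2 / (Real.pi * a₀)⌉₊ : ℝ) * (R.length : ℝ) ^ 2) := by
    have h10 := mul_le_mul_of_nonneg_right h8 (sq_nonneg (R.length : ℝ))
    linarith
  exact_mod_cast h9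

end F67

end MSG
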